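import Pool.Agent.Y862.GM.Stm

set_option autoImplicit false

/-!
Project GM, job SIGN: comparison of the moments with random signs.
-/

namespace Pool.Agent.Y340.GM

open Finset Pool.Agent.Y862.GM

lemma even_card {K : ℕ} (g : Fin K → ℕ) (hg : ¬ (odd g).Nonempty) (b : ℕ) (hb : b ∈ univ.image g) :
    ∃ m : ℕ, m ≠ 0 ∧ (univ.filter (fun i => g i = b)).card = m + m := by
  have h1 : Even ((univ.filter (fun i => g i = b)).card) := by
    by_contra h
    apply hg
    refine ⟨b, ?_⟩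
    unfold odd
    rw [mem_filter]
    exact ⟨hb, Nat.not_even_iff_odd.1 h⟩
  obtain ⟨m, hm⟩ := h1
  refine ⟨m, ?_, hm⟩
  rintro rfl
  rw [mem_image] at hb
  obtain ⟨i, -, hi⟩ := hb
  have : i ∈ univ.filter (fun i => g i = b) := by simp [hi]
  have h0 : (univ.filter (fun i => g i = b)) = ∅ := card_eq_zero.1 (by simpa using hm)
  rw [h0] at this
  simp at this

lemma prod_even {K : ℕ} (g : Fin K → ℕ) (hg : ¬ (odd g).Nonempty) (F : ℕ → ℝ)
    (hF : ∀ h, F h ^ 3 = F h) : ∏ i, F (g i) = ∏ i, F (g i) ^ 2 := by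
  rw [Finset.prod_comp F g, Finset.prod_comp (fun h => F h ^ 2) g]
  refine Finset.prod_congr rfl fun b hb => ?_
  obtain ⟨m, hm0, hm⟩ := even_card g hg b hb
  rw [hm]
  have h1 : F b * (F b ^ 2 - 1) = 0 := by linear_combination hF b
  rcases mul_eq_zero.1 h1 with h2 | h2
  · rw [h2]
    have : m + m ≠ 0 := by omega
    simp [this]
  · have h3 : F b ^ 2 = 1 := by linarith
    rw [h3, one_pow, ← two_mul, pow_mul, h3, one_pow]

lemma sg_sq (U : Finset ℕ) (h : ℕ) : sg U h ^ 2 = 1 := by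
  unfold sg
  split_ifs <;> norm_num

lemma sum_even {K L : ℕ} (g : Fin K → ℕ) (hg : ¬ (odd g).Nonempty) :
    ∑ U ∈ (Ioc 0 L).powerset, ∏ i, sg U (g i) = 2 ^ L := by
  have h1 : ∀ U ∈ (Ioc 0 L).powerset, ∏ i, sg U (g i) = 1 := by
    intro U _
    rw [prod_even g hg (sg U) (fun h => by rw [pow_succ, sg_sq, one_mul])]
    simp_rw [sg_sq]
    simp
  rw [Finset.sum_congr rfl h1]
  simp

lemma sum_odd {K L : ℕ} (g : Fin K → ℕ) (hgL : ∀ i, g i ∈ Ioc 0 L) (hg : (odd g).Nonempty) :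
    ∑ U ∈ (Ioc 0 L).powerset, ∏ i, sg U (g i) = 0 := by
  classical
  obtain ⟨v0, hv0⟩ := hg
  unfold odd at hv0
  rw [mem_filter, mem_image] at hv0
  obtain ⟨⟨i0, -, hi0⟩, hodd⟩ := hv0
  have hv0L : v0 ∈ Ioc 0 L := hi0 ▸ hgL i0
  let inv : Finset ℕ → Finset ℕ := fun U => if v0 ∈ U then U.erase v0 else insert v0 U
  have hsg : ∀ U h, sg (inv U) h = sg U h * (if h = v0 then -1 else 1) := by
    intro U h
    show sg (if v0 ∈ U then U.erase v0 else insert v0 U) h = _
    by_cases hh : h = v0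
    · subst hh
      by_cases hU : h ∈ U
      · simp [sg, hU]
      · simp [sg, hU]
    · by_cases hU : v0 ∈ U
      · simp [sg, hU, hh]
      · simp [sg, hU, hh]
  have key : ∀ U, ∏ i, sg (inv U) (g i) = - ∏ i, sg U (g i) := by
    intro U
    simp_rw [hsg]
    rw [prod_mul_distrib]
    have h2 : ∏ i, (if g i = v0 then (-1:ℝ) else 1) = -1 := by
      rw [Finset.prod_ite]
      simp only [prod_const, one_pow, mul_one]
      exact hodd.neg_one_pow
    rw [h2]
    ring
  refine Finset.sum_involution (fun U _ => inv U) ?_ ?_ ?_ ?_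
  · intro U _
    rw [key U]
    ring
  · intro U _ _ h
    have h3 := congrArg (fun S => v0 ∈ S) h
    by_cases hU : v0 ∈ U
    · simp [inv, hU] at h3
    · simp [inv, hU] at h3
  · intro U hU
    rw [mem_powerset] at hU ⊢
    show (if v0 ∈ U then U.erase v0 else insert v0 U) ⊆ _
    split_ifs with h
    · exact (erase_subset _ _).trans hU
    · exact insert_subset hv0L hU
  · intro U _
    show inv (inv U) = U
    by_cases hU : v0 ∈ U
    · have h1 : inv U = U.erase v0 := by simp [inv, hU]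
      rw [h1]
      have h2 : v0 ∉ U.erase v0 := by simp
      simp only [inv, h2, if_false]
      exact insert_erase hU
    · have h1 : inv U = insert v0 U := by simp [inv, hU]
      rw [h1]
      have h2 : v0 ∈ insert v0 U := mem_insert_self _ _
      simp only [inv, h2, if_true]
      exact erase_insert hU

lemma pow_expand (H : Finset ℕ) (K : ℕ) (c : ℕ → ℝ) :
    (∑ h ∈ H, c h) ^ K = ∑ g ∈ Fintype.piFinset (fun _ : Fin K => H), ∏ i, c (g i) := by
  have h1 := Finset.prod_univ_sum (fun _ : Fin K => H) (fun _ h => c h)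
  rw [← h1]
  simp

theorem t_SIGN : S_SIGN := by
  intro Om L K f v C δ hf hv hδ h
  have hC : 0 ≤ C := (abs_nonneg _).trans (hv 0)
  set G : Finset (Fin K → ℕ) := Fintype.piFinset (fun _ : Fin K => Ioc 0 L) with hG
  have hGm : ∀ g ∈ G, ∀ i, g i ∈ Ioc 0 L := by
    intro g hg i
    exact (Fintype.mem_piFinset.1 hg) i
  have e1 : ∑ x ∈ Om, (∑ h ∈ Ioc 0 L, v h * f x h) ^ K =
      ∑ g ∈ G, (∏ i, v (g i)) * ∑ x ∈ Om, ∏ i, f x (g i) := by
    simp_rw [pow_expand]
    rw [Finset.sum_comm]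
    refine Finset.sum_congr rfl fun g _ => ?_
    rw [Finset.mul_sum]
    refine Finset.sum_congr rfl fun x _ => ?_
    rw [prod_mul_distrib]
  have e2 : ∑ x ∈ Om, (∑ U ∈ (Ioc 0 L).powerset, (∑ h ∈ Ioc 0 L, v h * sg U h * f x h ^ 2) ^ K) / 2 ^ L =
      ∑ g ∈ G, (∏ i, v (g i)) * ((∑ U ∈ (Ioc 0 L).powerset, ∏ i, sg U (g i)) / 2 ^ L *
        ∑ x ∈ Om, ∏ i, f x (g i) ^ 2) := by
    simp_rw [pow_expand]
    rw [Finset.sum_congr rfl (fun x _ => by rw [Finset.sum_comm])]
    simp_rw [Finset.sum_div]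
    rw [Finset.sum_comm]
    refine Finset.sum_congr rfl fun g _ => ?_
    rw [Finset.sum_comm, Finset.sum_mul, Finset.mul_sum]
    refine Finset.sum_congr rfl fun U _ => ?_
    rw [Finset.mul_sum, Finset.mul_sum]
    refine Finset.sum_congr rfl fun x _ => ?_
    rw [prod_mul_distrib, prod_mul_distrib]
    ring
  rw [e1, e2, ← Finset.sum_sub_distrib]
  have key : ∀ g ∈ G, |(∏ i, v (g i)) * ∑ x ∈ Om, ∏ i, f x (g i) -
      (∏ i, v (g i)) * ((∑ U ∈ (Ioc 0 L).powerset, ∏ i, sg U (g i)) / 2 ^ L *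
        ∑ x ∈ Om, ∏ i, f x (g i) ^ 2)| ≤ C ^ K * δ := by
    intro g hg
    by_cases ho : (odd g).Nonempty
    · rw [sum_odd g (hGm g hg) ho, zero_div, zero_mul, mul_zero, sub_zero, abs_mul]
      have h1 : |∏ i, v (g i)| ≤ C ^ K := by
        rw [Finset.abs_prod]
        calc ∏ i, |v (g i)| ≤ ∏ _i : Fin K, C :=
              Finset.prod_le_prod (fun i _ => abs_nonneg _) (fun i _ => hv _)
          _ = C ^ K := by simp
      exact mul_le_mul h1 (h g (hGm g hg) ho) (abs_nonneg _) (pow_nonneg hC _)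
    · rw [sum_even g ho, div_self (by positivity), one_mul]
      have h1 : ∑ x ∈ Om, ∏ i, f x (g i) = ∑ x ∈ Om, ∏ i, f x (g i) ^ 2 :=
        Finset.sum_congr rfl fun x _ => prod_even g ho (f x) (hf x)
      rw [h1, sub_self, abs_zero]
      positivity
  calc |∑ g ∈ G, ((∏ i, v (g i)) * ∑ x ∈ Om, ∏ i, f x (g i) -
        (∏ i, v (g i)) * ((∑ U ∈ (Ioc 0 L).powerset, ∏ i, sg U (g i)) / 2 ^ L *
        ∑ x ∈ Om, ∏ i, f x (g i) ^ 2))|
      ≤ ∑ g ∈ G, C ^ K * δ := (Finset.abs_sum_le_sum_abs _ _).trans (Finset.sum_le_sum key)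
    _ = (C * L) ^ K * δ := by
        rw [Finset.sum_const, hG, Fintype.card_piFinset]
        simp only [Nat.card_Ioc, Nat.sub_zero, prod_const, card_univ, Fintype.card_fin, nsmul_eq_mul]
        push_cast
        rw [mul_pow]
        ring

end Pool.Agent.Y340.GM
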